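import Mathlib
import Pool.Agent.H.MP_25e654_an.A

set_option autoImplicit false

namespace Pool.Agent.Results.MP_25e654_an.No

open Set Function TopologicalSpace

theorem result : ∃ (X Y M : Type) (_ : NormedAddCommGroup X) (_ : NormedSpace ℝ X) (_ : CompleteSpace X)
    (_ : SeparableSpace X) (_ : NormedAddCommGroup Y) (_ : NormedSpace ℝ Y) (_ : CompleteSpace Y)
    (_ : SeparableSpace Y) (_ : NormedAddCommGroup M) (_ : NormedSpace ℝ M) (_ : CompleteSpace M)
    (j : M →L[ℝ] Y) (φ : X → Y), Injective j ∧ (∀ m, ‖j m‖ ≤ ‖m‖) ∧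
      @Measurable X Y (borel X) (borel Y) φ ∧
      (∀ (x y : X) (a b : ℝ), φ (a • x + b • y) - (a • φ x + b • φ y) ∈ range j) ∧
      ∀ (Z : Type) [NormedAddCommGroup Z] [NormedSpace ℝ Z] [CompleteSpace Z] (i : Z →L[ℝ] Y),
        Injective i → range i ≠ {v | ∃ x m, v = φ x + j m} := by
  open Pool.Agent.H.MP_25e654_an in
  haveI := sep
  refine ⟨E, E × E, E, inferInstance, inferInstance, inferInstance, inferInstance, inferInstance, inferInstance,
    inferInstance, inferInstance, inferInstance, inferInstance, inferInstance, J, fun x => (om x, x),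
    fun x y h => lp.ext (funext fun n => ?_), fun m => ?_, meas, lin, main⟩
  · simpa [J, mu] using congrArg (fun v : E × E => v.1 n) h
  simpa [J] using (mu _ hw).le_of_opNorm_le (lp.norm_mapCLM_le ..) m

end Pool.Agent.Results.MP_25e654_an.No
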